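import Mathlib

/-!
# A connected graph whose variable Szeged and Wiener indices agree for several exponents

The graph is a cocktail party graph on `2 t` vertices, all of them joined to the first vertex of a path with `L`
vertices, for `t = 2 ^ 22` and `L = 2 ^ 16`. The difference of the two indices is negative at `0`, positive at
`1 / 4` and negative at `1 / 2`.
-/

set_option autoImplicit false

namespace Pool.Agent.Results.MP_dd6dde_co.SeveralZeros

open Finset

section defs

variable {V : Type} [Fintype V]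

open Classical in
/-- the number of vertices that are strictly closer to `u` than to `v` -/
noncomputable def closer (G : SimpleGraph V) (u v : V) : ℕ :=
  (univ.filter fun w => G.dist w u < G.dist w v).card

open Classical in
/-- `d(x, y) ^ α` if `x ≠ y`, and `0` if `x = y` -/
noncomputable def wterm (G : SimpleGraph V) (α : ℝ) (x y : V) : ℝ := if x ≠ y then (G.dist x y : ℝ) ^ α else 0

/-- the variable Wiener index, half the sum of `d(x, y) ^ α` over the ordered pairs of distinct vertices -/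
noncomputable def wiener (G : SimpleGraph V) (α : ℝ) : ℝ := (∑ x, ∑ y, wterm G α x y) / 2

open Classical in
/-- `(n_u n_v) ^ α` if `u` and `v` are adjacent, and `0` otherwise -/
noncomputable def sterm (G : SimpleGraph V) (α : ℝ) (u v : V) : ℝ :=
  if G.Adj u v then ((closer G u v : ℝ) * closer G v u) ^ α else 0

/-- the variable Szeged index, half the sum of `(n_u n_v) ^ α` over the ordered pairs of adjacent vertices -/
noncomputable def szeged (G : SimpleGraph V) (α : ℝ) : ℝ := (∑ u, ∑ v, sterm G α u v) / 2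

end defs

/-! ### General facts: continuity, value at 0 -/

section general

variable {V : Type} [Fintype V] {G : SimpleGraph V}

theorem closer_pos {u v : V} (h : G.Adj u v) : 0 < closer G u v := by
  classical
  unfold closer
  refine Finset.card_pos.mpr ⟨u, ?_⟩
  rw [Finset.mem_filter]
  refine ⟨mem_univ _, ?_⟩
  rw [SimpleGraph.dist_self, SimpleGraph.dist_eq_one_iff_adj.mpr h]
  exact one_pos

theorem continuous_szeged : Continuous (szeged G) := by
  unfold szeged
  refine Continuous.div_const (continuous_finsetSum _ fun u _ => continuous_finsetSum _ fun v _ => ?_) _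
  unfold sterm
  by_cases h : G.Adj u v
  · simp only [h, if_true]
    refine Real.continuous_const_rpow ?_
    have h1 := closer_pos h
    have h2 := closer_pos h.symm
    positivity
  · simp only [h, if_false]
    exact continuous_const

theorem continuous_wiener (hG : G.Connected) : Continuous (wiener G) := by
  unfold wiener
  refine Continuous.div_const (continuous_finsetSum _ fun x _ => continuous_finsetSum _ fun y _ => ?_) _
  unfold wterm
  by_cases h : x = y
  · simp only [h, ne_eq, not_true_eq_false, if_false]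
    exact continuous_const
  · simp only [ne_eq, h, not_false_eq_true, if_true]
    refine Real.continuous_const_rpow ?_
    have h1 : G.dist x y ≠ 0 := fun h0 => h ((hG.dist_eq_zero_iff).mp h0)
    exact_mod_cast h1

theorem at_zero {x y : V} (hxy : x ≠ y) (hn : ¬ G.Adj x y) : szeged G 0 < wiener G 0 := by
  unfold szeged wiener
  refine div_lt_div_of_pos_right ?_ two_pos
  have hle : ∀ u v : V, sterm G 0 u v ≤ wterm G 0 u v := by
    intro u v
    unfold sterm wterm
    by_cases h : G.Adj u v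
    · have h' : u ≠ v := h.ne
      simp [h, h']
    · by_cases h' : u = v
      · simp [h']
      · simp [h, h']
  refine Finset.sum_lt_sum (fun u _ => Finset.sum_le_sum fun v _ => hle u v) ⟨x, mem_univ _, ?_⟩
  refine Finset.sum_lt_sum (fun v _ => hle x v) ⟨y, mem_univ _, ?_⟩
  unfold sterm wterm
  simp [hxy, hn]

end general

/-! ### The graph -/

/-- the vertices: `2 t` vertices of the cocktail party graph and `L` vertices of the path -/
abbrev Vx (t L : ℕ) : Type := (Fin t × Bool) ⊕ Fin L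

/-- adjacency -/
def adj {t L : ℕ} : Vx t L → Vx t L → Prop
  | .inl a, .inl b => a.1 ≠ b.1
  | .inl _, .inr i => i.val = 0
  | .inr i, .inl _ => i.val = 0
  | .inr i, .inr j => i.val + 1 = j.val ∨ j.val + 1 = i.val

/-- the graph: a cocktail party graph joined to the first vertex of a path -/
def K (t L : ℕ) : SimpleGraph (Vx t L) where
  Adj := adj
  symm := ⟨by
    rintro (a | i) (b | j) h
    · exact Ne.symm h
    · exact h
    · exact h
    · exact Or.symm h⟩
  loopless := ⟨by
    rintro (a | i) h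
    · exact h rfl
    · change i.val + 1 = i.val ∨ i.val + 1 = i.val at h
      omega⟩

variable {t L : ℕ}

theorem adj_cc {a b : Fin t × Bool} : (K t L).Adj (.inl a) (.inl b) ↔ a.1 ≠ b.1 := Iff.rfl

theorem adj_cp {a : Fin t × Bool} {i : Fin L} : (K t L).Adj (.inl a) (.inr i) ↔ i.val = 0 := Iff.rfl

theorem adj_pc {a : Fin t × Bool} {i : Fin L} : (K t L).Adj (.inr i) (.inl a) ↔ i.val = 0 := Iff.rfl

theorem adj_pp {i j : Fin L} : (K t L).Adj (.inr i) (.inr j) ↔ (i.val + 1 = j.val ∨ j.val + 1 = i.val) := Iff.rfl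

/-- a 1-Lipschitz function -/
def φ : Vx t L → ℕ
  | .inl _ => 0
  | .inr i => i.val + 1

theorem φ_walk {x y : Vx t L} (p : (K t L).Walk x y) : φ x ≤ φ y + p.length := by
  induction p with
  | nil => simp
  | @cons u v w h p ih =>
    rw [SimpleGraph.Walk.length_cons]
    have : φ u ≤ φ v + 1 := by
      rcases u with a | i <;> rcases v with b | j
      · simp [φ]
      · simp [φ]
      · have : i.val = 0 := h
        simp [φ, this]
      · have : i.val + 1 = j.val ∨ j.val + 1 = i.val := h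
        simp only [φ]
        omega
    omega

theorem walk_tail (a : Fin t × Bool) : ∀ (n : ℕ) (hn : n < L),
    ∃ p : (K t L).Walk (.inl a) (.inr ⟨n, hn⟩), p.length = n + 1 := by
  intro n
  induction n with
  | zero =>
    intro hn
    have h : (K t L).Adj (.inl a) (.inr ⟨0, hn⟩) := adj_cp.mpr rfl
    exact ⟨h.toWalk, by simp⟩
  | succ n ih =>
    intro hn
    obtain ⟨p, hp⟩ := ih (by omega)
    have h : (K t L).Adj (.inr ⟨n, by omega⟩) (.inr ⟨n + 1, hn⟩) := adj_pp.mpr (Or.inl rfl)
    exact ⟨p.concat h, by rw [SimpleGraph.Walk.length_concat, hp]⟩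

theorem walk_tail_zero (hL : 0 < L) : ∀ (n : ℕ) (hn : n < L),
    ∃ p : (K t L).Walk (.inr ⟨0, hL⟩) (.inr ⟨n, hn⟩), p.length = n := by
  intro n
  induction n with
  | zero => intro hn; exact ⟨SimpleGraph.Walk.nil, rfl⟩
  | succ n ih =>
    intro hn
    obtain ⟨p, hp⟩ := ih (by omega)
    have h : (K t L).Adj (.inr ⟨n, by omega⟩) (.inr ⟨n + 1, hn⟩) := adj_pp.mpr (Or.inl rfl)
    exact ⟨p.concat h, by rw [SimpleGraph.Walk.length_concat, hp]⟩

theorem connected (_ : 0 < t) (hL : 0 < L) : (K t L).Connected := by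
  have h0 : ∀ x : Vx t L, (K t L).Reachable (.inr ⟨0, hL⟩) x := by
    rintro (a | i)
    · exact (SimpleGraph.Adj.reachable (adj_pc.mpr rfl))
    · obtain ⟨p, _⟩ := walk_tail_zero (t := t) hL i.val i.isLt
      exact p.reachable
  have : Nonempty (Vx t L) := ⟨.inr ⟨0, hL⟩⟩
  exact ⟨fun x y => (h0 x).symm.trans (h0 y)⟩

theorem φ_dist (ht : 0 < t) (hL : 0 < L) (x y : Vx t L) : φ x ≤ φ y + (K t L).dist x y := by
  obtain ⟨p, hp⟩ := ((connected ht hL).preconnected x y).exists_walk_length_eq_dist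
  rw [← hp]
  exact φ_walk p

theorem dist_cp (ht : 0 < t) (hL : 0 < L) (a : Fin t × Bool) (i : Fin L) :
    (K t L).dist (.inl a) (.inr i) = i.val + 1 := by
  refine le_antisymm ?_ ?_
  · obtain ⟨p, hp⟩ := walk_tail a i.val i.isLt
    rw [← hp]
    exact SimpleGraph.dist_le p
  · have := φ_dist ht hL (.inr i) (.inl a)
    rw [SimpleGraph.dist_comm]
    simpa [φ] using this

theorem dist_pc (ht : 0 < t) (hL : 0 < L) (a : Fin t × Bool) (i : Fin L) :
    (K t L).dist (.inr i) (.inl a) = i.val + 1 := by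
  rw [SimpleGraph.dist_comm]; exact dist_cp ht hL a i

theorem dist_cc_le (ht : 0 < t) (hL : 0 < L) (a b : Fin t × Bool) : (K t L).dist (.inl a) (.inl b) ≤ 2 := by
  have h := (connected ht hL).dist_triangle (u := (.inl a : Vx t L)) (v := .inr ⟨0, hL⟩) (w := .inl b)
  rw [dist_cp ht hL, dist_pc ht hL] at h
  simpa using h

theorem dist_cc_two (ht : 0 < t) (hL : 0 < L) {a b : Fin t × Bool} (h : a.1 = b.1) (hab : a ≠ b) :
    (K t L).dist (.inl a) (.inl b) = 2 := by
  have h1 := dist_cc_le ht hL a b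
  have h2 : (K t L).dist (.inl a) (.inl b) ≠ 0 := fun h0 =>
    hab (Sum.inl_injective (((connected ht hL).dist_eq_zero_iff).mp h0))
  have h3 : (K t L).dist (.inl a) (.inl b) ≠ 1 := fun h0 =>
    (adj_cc.mp (SimpleGraph.dist_eq_one_iff_adj.mp h0)) h
  omega

theorem dist_cc_one {a b : Fin t × Bool} (h : a.1 ≠ b.1) : (K t L).dist (.inl a) (.inl b) = 1 :=
  SimpleGraph.dist_eq_one_iff_adj.mpr (adj_cc.mpr h)

theorem dist_pp_le (i j : Fin L) : (K t L).dist (.inr i) (.inr j) ≤ L := by
  have key : ∀ (k : ℕ) (m : ℕ) (hm : m + k < L),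
      ∃ p : (K t L).Walk (.inr ⟨m, by omega⟩) (.inr ⟨m + k, hm⟩), p.length = k := by
    intro k
    induction k with
    | zero => intro m hm; exact ⟨SimpleGraph.Walk.nil, rfl⟩
    | succ k ih =>
      intro m hm
      obtain ⟨p, hp⟩ := ih m (by omega)
      have h : (K t L).Adj (.inr ⟨m + k, by omega⟩) (.inr ⟨m + (k + 1), hm⟩) := adj_pp.mpr (Or.inl rfl)
      exact ⟨p.concat h, by rw [SimpleGraph.Walk.length_concat, hp]⟩
  have key2 : ∀ i j : Fin L, i.val ≤ j.val → (K t L).dist (.inr i) (.inr j) ≤ L := by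
    intro i j hij
    obtain ⟨p, hp⟩ := key (j.val - i.val) i.val (by omega)
    have hj : (⟨i.val + (j.val - i.val), by omega⟩ : Fin L) = j := Fin.ext (by simp; omega)
    have h1 := SimpleGraph.dist_le p
    rw [hp] at h1
    have h2 : (K t L).dist (.inr i) (.inr j) ≤ j.val - i.val := by
      have h3 : (Sum.inr (⟨i.val + (j.val - i.val), by omega⟩ : Fin L) : Vx t L) = Sum.inr j := by rw [hj]
      rw [h3] at h1
      exact h1
    omega
  rcases le_total i.val j.val with h | h
  · exact key2 i j h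
  · rw [SimpleGraph.dist_comm]; exact key2 j i h

theorem dist_zero_le (hL : 0 < L) (i : Fin L) : (K t L).dist (.inr i) (.inr ⟨0, hL⟩) ≤ i.val := by
  obtain ⟨p, hp⟩ := walk_tail_zero (t := t) hL i.val i.isLt
  rw [SimpleGraph.dist_comm]
  have := SimpleGraph.dist_le p
  rw [hp] at this
  exact this

/-! ### The numbers of closer vertices -/

theorem closer_cc_ge (ht : 0 < t) (hL : 0 < L) {a b : Fin t × Bool} (h : a.1 ≠ b.1) :
    2 ≤ closer (K t L) (.inl a) (.inl b) := by
  classical
  unfold closer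
  have hb : (b.1, !b.2) ≠ b := by
    intro h0
    have := congrArg Prod.snd h0
    simp at this
  have hne : (Sum.inl a : Vx t L) ≠ Sum.inl (b.1, !b.2) := by
    intro h0
    have h1 : a = (b.1, !b.2) := Sum.inl_injective h0
    exact h (by simpa using congrArg Prod.fst h1)
  have hsub : ({Sum.inl a, Sum.inl (b.1, !b.2)} : Finset (Vx t L)) ⊆
      univ.filter fun w => (K t L).dist w (.inl a) < (K t L).dist w (.inl b) := by
    intro w hw
    rw [Finset.mem_insert, Finset.mem_singleton] at hw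
    rw [Finset.mem_filter]
    refine ⟨mem_univ _, ?_⟩
    rcases hw with rfl | rfl
    · rw [SimpleGraph.dist_self, dist_cc_one h]; exact one_pos
    · have h1 : ((b.1, !b.2) : Fin t × Bool).1 ≠ a.1 := Ne.symm h
      rw [dist_cc_one h1, dist_cc_two ht hL (a := (b.1, !b.2)) (b := b) rfl hb]; exact one_lt_two
  calc 2 = ({Sum.inl a, Sum.inl (b.1, !b.2)} : Finset (Vx t L)).card := (Finset.card_pair hne).symm
    _ ≤ _ := Finset.card_le_card hsub

theorem closer_cc_le (ht : 0 < t) (hL : 0 < L) {a b : Fin t × Bool} (h : a.1 ≠ b.1) :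
    closer (K t L) (.inl a) (.inl b) ≤ 2 := by
  classical
  unfold closer
  have hsub : (univ.filter fun w => (K t L).dist w (.inl a) < (K t L).dist w (.inl b)) ⊆
      ({Sum.inl a, Sum.inl (b.1, !b.2)} : Finset (Vx t L)) := by
    intro w hw
    rw [Finset.mem_filter] at hw
    rw [Finset.mem_insert, Finset.mem_singleton]
    rcases w with c | i
    · by_cases hc : c = a
      · left; rw [hc]
      right
      have h0 : (K t L).dist (.inl c) (.inl a) ≠ 0 := fun h0 =>
        hc (Sum.inl_injective (((connected ht hL).dist_eq_zero_iff).mp h0))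
      have h1 : c.1 = b.1 := by
        by_contra h2
        have := dist_cc_one (L := L) h2
        omega
      have h2 : c ≠ b := by
        rintro rfl
        rw [SimpleGraph.dist_self] at hw
        omega
      congr 1
      refine Prod.ext h1 ?_
      have h3 : c.2 ≠ b.2 := fun h3 => h2 (Prod.ext h1 h3)
      revert h3
      cases c.2 <;> cases b.2 <;> simp
    · rw [dist_pc ht hL, dist_pc ht hL] at hw
      omega
  exact (Finset.card_le_card hsub).trans Finset.card_le_two

theorem closer_cp_le (ht : 0 < t) (hL : 0 < L) (a : Fin t × Bool) {i : Fin L} (hi : i.val = 0) :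
    closer (K t L) (.inl a) (.inr i) ≤ 1 := by
  classical
  unfold closer
  have hsub : (univ.filter fun w => (K t L).dist w (.inl a) < (K t L).dist w (.inr i)) ⊆
      ({Sum.inl a} : Finset (Vx t L)) := by
    intro w hw
    rw [Finset.mem_filter] at hw
    rw [Finset.mem_singleton]
    rcases w with c | j
    · rw [dist_cp ht hL, hi] at hw
      have h0 : (K t L).dist (.inl c) (.inl a) = 0 := by omega
      exact ((connected ht hL).dist_eq_zero_iff).mp h0
    · rw [dist_pc ht hL] at hw
      have h1 : i = ⟨0, hL⟩ := Fin.ext hi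
      rw [h1] at hw
      have := dist_zero_le (t := t) hL j
      omega
  exact (Finset.card_le_card hsub).trans (by simp)

theorem closer_le (x y : Vx t L) : closer (K t L) x y ≤ 2 * t + L := by
  classical
  unfold closer
  refine (Finset.card_filter_le _ _).trans ?_
  rw [Finset.card_univ]
  simp [Vx]
  omega

/-! ### Sums -/

theorem two_half (x : ℝ) : 2 * (x / 2) = x := by ring

/-- the number of ordered pairs of adjacent vertices of the cocktail party graph -/
theorem sum_ne (c : ℝ) :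
    (∑ a : Fin t × Bool, ∑ b : Fin t × Bool, if a.1 ≠ b.1 then c else 0) = (2 * t * (2 * t - 2)) * c := by
  have h1 : ∀ a : Fin t × Bool, (∑ b : Fin t × Bool, if a.1 ≠ b.1 then c else 0) = (2 * t - 2) * c := by
    intro a
    have h2 : ∀ b : Fin t × Bool, (if a.1 ≠ b.1 then c else 0) = c - if a.1 = b.1 then c else 0 := by
      intro b
      by_cases h : a.1 = b.1 <;> simp [h]
    rw [Finset.sum_congr rfl fun b _ => h2 b, Finset.sum_sub_distrib, Fintype.sum_prod_type,
      Fintype.sum_prod_type]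
    simp only [Fintype.sum_bool, ← two_mul, ← Finset.mul_sum, Finset.sum_ite_eq, mem_univ, if_true]
    simp
    ring
  rw [Finset.sum_congr rfl fun a _ => h1 a]
  simp
  ring

theorem sum_eq (c : ℝ) :
    (∑ a : Fin t × Bool, ∑ b : Fin t × Bool, if a.1 = b.1 then c else 0) = 4 * t * c := by
  have h1 : ∀ a : Fin t × Bool, (∑ b : Fin t × Bool, if a.1 = b.1 then c else 0) = 2 * c := by
    intro a
    rw [Fintype.sum_prod_type]
    simp only [Fintype.sum_bool, ← two_mul, ← Finset.mul_sum, Finset.sum_ite_eq, mem_univ, if_true]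
  rw [Finset.sum_congr rfl fun a _ => h1 a]
  simp
  ring

theorem sum_single_le (m : ℕ) {c : ℝ} (hc : 0 ≤ c) : (∑ j : Fin L, if j.val = m then c else 0) ≤ c := by
  by_cases hm : m < L
  · have h1 : ∀ j : Fin L, (if j.val = m then c else 0) = if j = ⟨m, hm⟩ then c else 0 := by
      intro j
      by_cases h : j.val = m
      · rw [if_pos h, if_pos (Fin.ext h)]
      · rw [if_neg h, if_neg fun h' => h (by rw [h'])]
    rw [Finset.sum_congr rfl fun j _ => h1 j]
    simp
  · have h1 : ∀ j : Fin L, (if j.val = m then c else 0) = 0 := by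
      intro j
      exact if_neg fun h => hm (by rw [← h]; exact j.isLt)
    rw [Finset.sum_congr rfl fun j _ => h1 j]
    simpa using hc

theorem sterm_adj {α : ℝ} {u v : Vx t L} (h : (K t L).Adj u v) :
    sterm (K t L) α u v = ((closer (K t L) u v : ℝ) * closer (K t L) v u) ^ α := by
  unfold sterm; rw [if_pos h]

theorem sterm_not {α : ℝ} {u v : Vx t L} (h : ¬ (K t L).Adj u v) : sterm (K t L) α u v = 0 := by
  unfold sterm; rw [if_neg h]

theorem sterm_nonneg {α : ℝ} (u v : Vx t L) : 0 ≤ sterm (K t L) α u v := by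
  unfold sterm
  split_ifs
  · positivity
  · exact le_rfl

theorem wterm_ne {α : ℝ} {u v : Vx t L} (h : u ≠ v) : wterm (K t L) α u v = ((K t L).dist u v : ℝ) ^ α := by
  unfold wterm; rw [if_pos h]

theorem wterm_self {α : ℝ} (u : Vx t L) : wterm (K t L) α u u = 0 := by
  unfold wterm; rw [if_neg fun h => h rfl]

theorem wterm_nonneg {α : ℝ} (u v : Vx t L) : 0 ≤ wterm (K t L) α u v := by
  unfold wterm
  split_ifs
  · positivity
  · exact le_rfl

theorem inl_ne {a b : Fin t × Bool} (h : a ≠ b) : (Sum.inl a : Vx t L) ≠ Sum.inl b := fun hh =>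
  h (Sum.inl_injective hh)

theorem szeged_ge (ht : 0 < t) (hL : 0 < L) {α : ℝ} (hα : 0 ≤ α) :
    (2 * t * (2 * t - 2)) * (4 : ℝ) ^ α ≤ 2 * szeged (K t L) α := by
  rw [← sum_ne]
  unfold szeged
  rw [two_half, Fintype.sum_sum_type]
  refine le_add_of_le_of_nonneg (Finset.sum_le_sum fun a _ => ?_)
    (Finset.sum_nonneg fun i _ => Finset.sum_nonneg fun v _ => sterm_nonneg _ _)
  rw [Fintype.sum_sum_type]
  refine le_add_of_le_of_nonneg (Finset.sum_le_sum fun b _ => ?_) (Finset.sum_nonneg fun i _ => sterm_nonneg _ _)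
  by_cases h : a.1 ≠ b.1
  · rw [if_pos h, sterm_adj (adj_cc.mpr h)]
    refine Real.rpow_le_rpow (by norm_num) ?_ hα
    have h1 := closer_cc_ge ht hL h
    have h2 := closer_cc_ge ht hL (Ne.symm h)
    have h3 : 2 * 2 ≤ closer (K t L) (.inl a) (.inl b) * closer (K t L) (.inl b) (.inl a) := Nat.mul_le_mul h1 h2
    calc (4 : ℝ) = ((2 * 2 : ℕ) : ℝ) := by norm_num
      _ ≤ ((closer (K t L) (.inl a) (.inl b) * closer (K t L) (.inl b) (.inl a) : ℕ) : ℝ) := by exact_mod_cast h3
      _ = _ := by push_cast; ring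
  · rw [if_neg h]
    exact sterm_nonneg _ _

theorem prod_le {x y : Vx t L} {A B : ℕ} {α : ℝ} (hα : 0 ≤ α) (h1 : closer (K t L) x y ≤ A)
    (h2 : closer (K t L) y x ≤ B) :
    ((closer (K t L) x y : ℝ) * closer (K t L) y x) ^ α ≤ ((A * B : ℕ) : ℝ) ^ α := by
  refine Real.rpow_le_rpow (by positivity) ?_ hα
  have := Nat.mul_le_mul h1 h2
  calc (closer (K t L) x y : ℝ) * closer (K t L) y x
      = ((closer (K t L) x y * closer (K t L) y x : ℕ) : ℝ) := by push_cast; ring
    _ ≤ _ := by exact_mod_cast this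

theorem szeged_le (ht : 0 < t) (hL : 0 < L) {α : ℝ} (hα : 0 ≤ α) :
    2 * szeged (K t L) α ≤ (2 * t * (2 * t - 2)) * (4 : ℝ) ^ α + 4 * t * ((2 * t + L : ℕ) : ℝ) ^ α +
      2 * L * (((2 * t + L) * (2 * t + L) : ℕ) : ℝ) ^ α := by
  set n : ℕ := 2 * t + L with hn
  unfold szeged
  rw [two_half, Fintype.sum_sum_type]
  -- the four blocks
  have hcc : ∀ a : Fin t × Bool, (∑ b : Fin t × Bool, sterm (K t L) α (.inl a) (.inl b)) ≤
      ∑ b : Fin t × Bool, if a.1 ≠ b.1 then (4 : ℝ) ^ α else 0 := by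
    intro a
    refine Finset.sum_le_sum fun b _ => ?_
    by_cases h : a.1 ≠ b.1
    · rw [if_pos h, sterm_adj (adj_cc.mpr h)]
      have := prod_le hα (closer_cc_le ht hL h) (closer_cc_le ht hL (Ne.symm h))
      norm_num at this ⊢
      exact this
    · rw [if_neg h, sterm_not fun h' => h (adj_cc.mp h')]
  have hcp : ∀ a : Fin t × Bool, (∑ i : Fin L, sterm (K t L) α (.inl a) (.inr i)) ≤ (n : ℝ) ^ α := by
    intro a
    refine le_trans (Finset.sum_le_sum fun i _ => ?_) (sum_single_le (L := L) 0 (by positivity))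
    by_cases h : i.val = 0
    · rw [if_pos h, sterm_adj (adj_cp.mpr h)]
      have := prod_le hα (closer_cp_le ht hL a h) (closer_le (.inr i) (.inl a))
      rw [one_mul] at this
      exact this
    · rw [if_neg h, sterm_not fun h' => h (adj_cp.mp h')]
  have hpc : ∀ a : Fin t × Bool, (∑ i : Fin L, sterm (K t L) α (.inr i) (.inl a)) ≤ (n : ℝ) ^ α := by
    intro a
    refine le_trans (Finset.sum_le_sum fun i _ => ?_) (sum_single_le (L := L) 0 (by positivity))
    by_cases h : i.val = 0
    · rw [if_pos h, sterm_adj (adj_pc.mpr h)]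
      have := prod_le hα (closer_le (.inr i) (.inl a)) (closer_cp_le ht hL a h)
      rw [mul_one] at this
      exact this
    · rw [if_neg h, sterm_not fun h' => h (adj_pc.mp h')]
  have hpp : ∀ i : Fin L, (∑ j : Fin L, sterm (K t L) α (.inr i) (.inr j)) ≤ 2 * ((n * n : ℕ) : ℝ) ^ α := by
    intro i
    have h1 : (∑ j : Fin L, sterm (K t L) α (.inr i) (.inr j)) ≤
      (∑ j : Fin L, if j.val = i.val + 1 then ((n * n : ℕ) : ℝ) ^ α else 0) +
        ∑ j : Fin L, if j.val = i.val - 1 then ((n * n : ℕ) : ℝ) ^ α else 0 := by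
      rw [← Finset.sum_add_distrib]
      refine Finset.sum_le_sum fun j _ => ?_
      have hc : (0 : ℝ) ≤ ((n * n : ℕ) : ℝ) ^ α := by positivity
      by_cases h : (K t L).Adj (.inr i) (.inr j)
      · rw [sterm_adj h]
        have h3 := prod_le hα (closer_le (t := t) (.inr i) (.inr j)) (closer_le (.inr j) (.inr i))
        rcases adj_pp.mp h with h' | h'
        · rw [if_pos h'.symm]
          split_ifs <;> linarith
        · rw [if_pos (show j.val = i.val - 1 by omega)]
          split_ifs <;> linarith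
      · rw [sterm_not h]
        split_ifs <;> linarith
    refine h1.trans ?_
    have h2 := sum_single_le (L := L) (i.val + 1) (c := ((n * n : ℕ) : ℝ) ^ α) (by positivity)
    have h3 := sum_single_le (L := L) (i.val - 1) (c := ((n * n : ℕ) : ℝ) ^ α) (by positivity)
    linarith
  have e1 : (∑ a : Fin t × Bool, ∑ v : Vx t L, sterm (K t L) α (.inl a) v) ≤
      (2 * t * (2 * t - 2)) * (4 : ℝ) ^ α + 2 * t * (n : ℝ) ^ α := by
    rw [← sum_ne]
    calc _ ≤ ∑ a : Fin t × Bool, ((∑ b : Fin t × Bool, if a.1 ≠ b.1 then (4 : ℝ) ^ α else 0) + (n : ℝ) ^ α) := by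
            refine Finset.sum_le_sum fun a _ => ?_
            rw [Fintype.sum_sum_type]
            exact add_le_add (hcc a) (hcp a)
      _ = _ := by
            rw [Finset.sum_add_distrib]
            simp only [Finset.sum_const, Finset.card_univ, Fintype.card_prod, Fintype.card_fin, Fintype.card_bool,
              nsmul_eq_mul]
            push_cast
            ring
  have e2 : (∑ i : Fin L, ∑ v : Vx t L, sterm (K t L) α (.inr i) v) ≤
      2 * t * (n : ℝ) ^ α + 2 * L * ((n * n : ℕ) : ℝ) ^ α := by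
    have h4 : (∑ i : Fin L, ∑ v : Vx t L, sterm (K t L) α (.inr i) v) =
      (∑ i : Fin L, ∑ a : Fin t × Bool, sterm (K t L) α (.inr i) (.inl a)) +
      ∑ i : Fin L, ∑ j : Fin L, sterm (K t L) α (.inr i) (.inr j) := by
      rw [← Finset.sum_add_distrib]
      refine Finset.sum_congr rfl fun i _ => ?_
      rw [Fintype.sum_sum_type]
    rw [h4]
    refine add_le_add ?_ ?_
    · rw [Finset.sum_comm]
      refine (Finset.sum_le_sum fun a _ => hpc a).trans ?_
      simp only [Finset.sum_const, Finset.card_univ, Fintype.card_prod, Fintype.card_fin, Fintype.card_bool,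
              nsmul_eq_mul]
      push_cast
      apply le_of_eq; ring
    · refine (Finset.sum_le_sum fun i _ => hpp i).trans ?_
      simp only [Finset.sum_const, Finset.card_univ, Fintype.card_fin, nsmul_eq_mul]
      apply le_of_eq; ring
  linarith

theorem wiener_le (ht : 0 < t) (hL : 0 < L) {α : ℝ} (hα : 0 ≤ α) :
    2 * wiener (K t L) α ≤ (2 * t * (2 * t - 2)) + 4 * t * (2 : ℝ) ^ α + (4 * t * L + L * L) * (L : ℝ) ^ α := by
  unfold wiener
  rw [two_half, Fintype.sum_sum_type]
  have hcc : ∀ a : Fin t × Bool, (∑ b : Fin t × Bool, wterm (K t L) α (.inl a) (.inl b)) ≤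
      (∑ b : Fin t × Bool, if a.1 ≠ b.1 then (1 : ℝ) else 0) +
      ∑ b : Fin t × Bool, if a.1 = b.1 then (2 : ℝ) ^ α else 0 := by
    intro a
    rw [← Finset.sum_add_distrib]
    refine Finset.sum_le_sum fun b _ => ?_
    have h2 : (0 : ℝ) ≤ 2 ^ α := by positivity
    by_cases h : a.1 = b.1
    · rw [if_neg (fun hh => hh h), if_pos h]
      by_cases h' : a = b
      · rw [h', wterm_self]
        linarith
      · rw [wterm_ne (inl_ne h'), dist_cc_two ht hL h h']
        norm_num
    · rw [if_pos h, if_neg h, wterm_ne (inl_ne fun hh => h (by rw [hh])), dist_cc_one h]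
      simp
  have hLα : (0 : ℝ) ≤ (L : ℝ) ^ α := by positivity
  have hcp : ∀ (a : Fin t × Bool) (i : Fin L), wterm (K t L) α (.inl a) (.inr i) ≤ (L : ℝ) ^ α := by
    intro a i
    rw [wterm_ne (by simp), dist_cp ht hL]
    refine Real.rpow_le_rpow (by positivity) ?_ hα
    exact_mod_cast i.isLt
  have hpc : ∀ (a : Fin t × Bool) (i : Fin L), wterm (K t L) α (.inr i) (.inl a) ≤ (L : ℝ) ^ α := by
    intro a i
    rw [wterm_ne (by simp), dist_pc ht hL]
    refine Real.rpow_le_rpow (by positivity) ?_ hα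
    exact_mod_cast i.isLt
  have hpp : ∀ (i j : Fin L), wterm (K t L) α (.inr i) (.inr j) ≤ (L : ℝ) ^ α := by
    intro i j
    unfold wterm
    split_ifs
    · refine Real.rpow_le_rpow (by positivity) ?_ hα
      exact_mod_cast dist_pp_le i j
    · exact hLα
  have e1 : (∑ a : Fin t × Bool, ∑ v : Vx t L, wterm (K t L) α (.inl a) v) ≤
      (2 * t * (2 * t - 2)) + 4 * t * (2 : ℝ) ^ α + 2 * t * L * (L : ℝ) ^ α := by
    have h1 := sum_ne (t := t) (1 : ℝ)
    have h2 := sum_eq (t := t) ((2 : ℝ) ^ α)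
    calc _ ≤ ∑ a : Fin t × Bool, (((∑ b : Fin t × Bool, if a.1 ≠ b.1 then (1 : ℝ) else 0) +
          ∑ b : Fin t × Bool, if a.1 = b.1 then (2 : ℝ) ^ α else 0) + ∑ i : Fin L, (L : ℝ) ^ α) := by
            refine Finset.sum_le_sum fun a _ => ?_
            rw [Fintype.sum_sum_type]
            exact add_le_add (hcc a) (Finset.sum_le_sum fun i _ => hcp a i)
      _ = _ := by
            rw [Finset.sum_add_distrib, Finset.sum_add_distrib, h1, h2]
            simp only [Finset.sum_const, Finset.card_univ, Fintype.card_prod, Fintype.card_fin, Fintype.card_bool,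
              nsmul_eq_mul]
            push_cast
            ring
  have e2 : (∑ i : Fin L, ∑ v : Vx t L, wterm (K t L) α (.inr i) v) ≤ (2 * t * L + L * L) * (L : ℝ) ^ α := by
    calc _ ≤ ∑ i : Fin L, ((∑ a : Fin t × Bool, (L : ℝ) ^ α) + ∑ j : Fin L, (L : ℝ) ^ α) := by
            refine Finset.sum_le_sum fun i _ => ?_
            rw [Fintype.sum_sum_type]
            exact add_le_add (Finset.sum_le_sum fun a _ => hpc a i) (Finset.sum_le_sum fun j _ => hpp i j)
      _ = _ := by
            simp only [Finset.sum_const, Finset.card_univ, Fintype.card_prod, Fintype.card_fin, Fintype.card_bool,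
              nsmul_eq_mul]
            push_cast
            ring
  linarith

theorem wiener_ge (ht : 0 < t) (hL : 0 < L) (α : ℝ) :
    (2 * t * (2 * t - 2)) + 4 * t * ∑ i : Fin L, ((i.val + 1 : ℕ) : ℝ) ^ α ≤ 2 * wiener (K t L) α := by
  unfold wiener
  rw [two_half, Fintype.sum_sum_type]
  have e1 : (2 * t * (2 * t - 2)) + 2 * t * ∑ i : Fin L, ((i.val + 1 : ℕ) : ℝ) ^ α ≤
      (∑ a : Fin t × Bool, ∑ v : Vx t L, wterm (K t L) α (.inl a) v) := by
    have h1 := sum_ne (t := t) (1 : ℝ)
    rw [mul_one] at h1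
    calc _ = ∑ a : Fin t × Bool, ((∑ b : Fin t × Bool, if a.1 ≠ b.1 then (1 : ℝ) else 0) +
          ∑ i : Fin L, ((i.val + 1 : ℕ) : ℝ) ^ α) := by
            rw [Finset.sum_add_distrib, h1]
            simp only [Finset.sum_const, Finset.card_univ, Fintype.card_prod, Fintype.card_fin, Fintype.card_bool,
              nsmul_eq_mul]
            push_cast
            ring
      _ ≤ _ := by
            refine Finset.sum_le_sum fun a _ => ?_
            rw [Fintype.sum_sum_type]
            refine add_le_add (Finset.sum_le_sum fun b _ => ?_) (Finset.sum_le_sum fun i _ => ?_)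
            · by_cases h : a.1 = b.1
              · rw [if_neg (fun hh => hh h)]
                exact wterm_nonneg _ _
              · rw [if_pos h, wterm_ne (inl_ne fun hh => h (by rw [hh])), dist_cc_one h]
                simp
            · rw [wterm_ne (by simp), dist_cp ht hL]
  have e2 : 2 * t * ∑ i : Fin L, ((i.val + 1 : ℕ) : ℝ) ^ α ≤
      (∑ i : Fin L, ∑ v : Vx t L, wterm (K t L) α (.inr i) v) := by
    calc _ = ∑ i : Fin L, ∑ a : Fin t × Bool, ((i.val + 1 : ℕ) : ℝ) ^ α := by
            rw [Finset.mul_sum]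
            refine Finset.sum_congr rfl fun i _ => ?_
            simp only [Finset.sum_const, Finset.card_univ, Fintype.card_prod, Fintype.card_fin, Fintype.card_bool,
              nsmul_eq_mul]
            push_cast
            ring
      _ ≤ _ := by
            refine Finset.sum_le_sum fun i _ => ?_
            rw [Fintype.sum_sum_type]
            refine le_add_of_le_of_nonneg (Finset.sum_le_sum fun a _ => ?_)
              (Finset.sum_nonneg fun j _ => wterm_nonneg _ _)
            rw [wterm_ne (by simp), dist_pc ht hL]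
  linarith

/-! ### The values at 1/4 and at 1/2 -/

theorem quarter : wiener (K (2 ^ 22) (2 ^ 16)) (1 / 4) < szeged (K (2 ^ 22) (2 ^ 16)) (1 / 4) := by
  have h1 := szeged_ge (t := 2 ^ 22) (L := 2 ^ 16) (by norm_num) (by norm_num) (α := 1 / 4) (by norm_num)
  have h2 := wiener_le (t := 2 ^ 22) (L := 2 ^ 16) (by norm_num) (by norm_num) (α := 1 / 4) (by norm_num)
  have h3 : (1.4 : ℝ) ≤ 4 ^ ((1 : ℝ) / 4) := by
    have : (1.4 : ℝ) = ((1.4 : ℝ) ^ (4 : ℕ)) ^ ((1 : ℝ) / 4) := by
      rw [← Real.rpow_natCast, ← Real.rpow_mul (by norm_num)]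
      norm_num
    rw [this]
    exact Real.rpow_le_rpow (by norm_num) (by norm_num) (by norm_num)
  have h4 : (2 : ℝ) ^ ((1 : ℝ) / 4) ≤ 2 := by
    calc (2 : ℝ) ^ ((1 : ℝ) / 4) ≤ 2 ^ (1 : ℝ) := Real.rpow_le_rpow_of_exponent_le (by norm_num) (by norm_num)
      _ = 2 := by norm_num
  have h5 : (((2 ^ 16 : ℕ) : ℝ)) ^ ((1 : ℝ) / 4) = 16 := by
    have : (((2 ^ 16 : ℕ) : ℝ)) = (16 : ℝ) ^ (4 : ℝ) := by norm_num
    rw [this, ← Real.rpow_mul (by norm_num)]
    norm_num
  rw [h5] at h2
  generalize szeged (K (2 ^ 22) (2 ^ 16)) (1 / 4) = s at *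
  generalize wiener (K (2 ^ 22) (2 ^ 16)) (1 / 4) = w at *
  generalize (4 : ℝ) ^ ((1 : ℝ) / 4) = x at *
  generalize (2 : ℝ) ^ ((1 : ℝ) / 4) = y at *
  push_cast at h1 h2
  norm_num at h1 h2 h3 h4 ⊢
  linarith

theorem sum_sqrt : (6291456 : ℝ) ≤ ∑ i : Fin (2 ^ 16), ((i.val + 1 : ℕ) : ℝ) ^ ((1 : ℝ) / 2) := by
  rw [Fin.sum_univ_eq_sum_range (fun i => ((i + 1 : ℕ) : ℝ) ^ ((1 : ℝ) / 2)) (2 ^ 16)]
  have hsub : Finset.Ico (2 ^ 14) (2 ^ 16) ⊆ Finset.range (2 ^ 16) := by
    intro i hi
    rw [Finset.mem_Ico] at hi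
    exact Finset.mem_range.mpr hi.2
  have h1 : ∀ i ∈ Finset.Ico (2 ^ 14) (2 ^ 16), (128 : ℝ) ≤ ((i + 1 : ℕ) : ℝ) ^ ((1 : ℝ) / 2) := by
    intro i hi
    rw [Finset.mem_Ico] at hi
    have : (128 : ℝ) = ((128 : ℝ) ^ (2 : ℝ)) ^ ((1 : ℝ) / 2) := by
      rw [← Real.rpow_mul (by norm_num)]
      norm_num
    rw [this]
    refine Real.rpow_le_rpow (by positivity) ?_ (by norm_num)
    have h2 : (2 ^ 14 : ℕ) ≤ i + 1 := by omega
    have h3 : ((2 ^ 14 : ℕ) : ℝ) ≤ ((i + 1 : ℕ) : ℝ) := by exact_mod_cast h2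
    norm_num at h3 ⊢
    exact h3
  calc (6291456 : ℝ) = ∑ i ∈ Finset.Ico (2 ^ 14) (2 ^ 16), (128 : ℝ) := by
        rw [Finset.sum_const, Nat.card_Ico]; norm_num
    _ ≤ ∑ i ∈ Finset.Ico (2 ^ 14) (2 ^ 16), ((i + 1 : ℕ) : ℝ) ^ ((1 : ℝ) / 2) := Finset.sum_le_sum h1
    _ ≤ _ := Finset.sum_le_sum_of_subset_of_nonneg hsub fun i _ _ => by positivity

theorem half : szeged (K (2 ^ 22) (2 ^ 16)) (1 / 2) < wiener (K (2 ^ 22) (2 ^ 16)) (1 / 2) := by
  have h1 := szeged_le (t := 2 ^ 22) (L := 2 ^ 16) (by norm_num) (by norm_num) (α := 1 / 2) (by norm_num)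
  have h2 := wiener_ge (t := 2 ^ 22) (L := 2 ^ 16) (by norm_num) (by norm_num) (1 / 2)
  have h3 : (4 : ℝ) ^ ((1 : ℝ) / 2) = 2 := by
    have : (4 : ℝ) = 2 ^ (2 : ℝ) := by norm_num
    rw [this, ← Real.rpow_mul (by norm_num)]
    norm_num
  have h4 : ((2 * 2 ^ 22 + 2 ^ 16 : ℕ) : ℝ) ^ ((1 : ℝ) / 2) ≤ 4096 := by
    have : (4096 : ℝ) = ((4096 : ℝ) ^ (2 : ℝ)) ^ ((1 : ℝ) / 2) := by
      rw [← Real.rpow_mul (by norm_num)]
      norm_num
    rw [this]
    exact Real.rpow_le_rpow (by positivity) (by norm_num) (by norm_num)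
  have h5 : (((2 * 2 ^ 22 + 2 ^ 16) * (2 * 2 ^ 22 + 2 ^ 16) : ℕ) : ℝ) ^ ((1 : ℝ) / 2) = 2 * 2 ^ 22 + 2 ^ 16 := by
    have : (((2 * 2 ^ 22 + 2 ^ 16) * (2 * 2 ^ 22 + 2 ^ 16) : ℕ) : ℝ) = ((2 * 2 ^ 22 + 2 ^ 16 : ℝ)) ^ (2 : ℝ) := by
      norm_num
    rw [this, ← Real.rpow_mul (by positivity)]
    norm_num
  have h6 := sum_sqrt
  rw [h5, h3] at h1
  generalize ∑ i : Fin (2 ^ 16), ((i.val + 1 : ℕ) : ℝ) ^ ((1 : ℝ) / 2) = S at *
  generalize ((2 * 2 ^ 22 + 2 ^ 16 : ℕ) : ℝ) ^ ((1 : ℝ) / 2) = T at *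
  generalize szeged (K (2 ^ 22) (2 ^ 16)) (1 / 2) = s at *
  generalize wiener (K (2 ^ 22) (2 ^ 16)) (1 / 2) = w at *
  push_cast at h1 h2
  norm_num at h1 h2 ⊢
  linarith

/-- There is a connected graph, not complete, for which the variable Szeged index and the variable Wiener index
agree for at least two exponents. -/
theorem result : ∃ (V : Type) (_ : Fintype V) (G : SimpleGraph V), G.Connected ∧ G ≠ ⊤ ∧
    ∃ α β : ℝ, α < β ∧ szeged G α = wiener G α ∧ szeged G β = wiener G β := by
  set G := K (2 ^ 22) (2 ^ 16) with hG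
  have hc : G.Connected := connected (by norm_num) (by norm_num)
  have hx : (Sum.inl (⟨0, by norm_num⟩, true) : Vx (2 ^ 22) (2 ^ 16)) ≠ Sum.inl (⟨0, by norm_num⟩, false) := by
    simp
  have hn : ¬ G.Adj (Sum.inl (⟨0, by norm_num⟩, true)) (Sum.inl (⟨0, by norm_num⟩, false)) := fun h =>
    (adj_cc.mp h) rfl
  have h0 := at_zero hx hn
  have hcont : Continuous fun α => szeged G α - wiener G α := continuous_szeged.sub (continuous_wiener hc)
  have h1 := quarter
  have h2 := half
  obtain ⟨α, hα, hα'⟩ := intermediate_value_Ioo (a := (0 : ℝ)) (b := 1 / 4) (by norm_num) hcont.continuousOn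
    (show (0 : ℝ) ∈ Set.Ioo (szeged G 0 - wiener G 0) (szeged G (1 / 4) - wiener G (1 / 4)) from
      ⟨by linarith, by linarith⟩)
  obtain ⟨β, hβ, hβ'⟩ := intermediate_value_Ioo' (a := (1 / 4 : ℝ)) (b := 1 / 2) (by norm_num) hcont.continuousOn
    (show (0 : ℝ) ∈ Set.Ioo (szeged G (1 / 2) - wiener G (1 / 2)) (szeged G (1 / 4) - wiener G (1 / 4)) from
      ⟨by linarith, by linarith⟩)
  refine ⟨_, inferInstance, G, hc, ?_, α, β, hα.2.trans hβ.1, ?_, ?_⟩
  · intro htop
    exact hn (htop ▸ hx)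
  · simp only at hα'
    linarith
  · simp only at hβ'
    linarith

end Pool.Agent.Results.MP_dd6dde_co.SeveralZeros
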